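import Pool.Agent.Helper60.FF.DefsB

/-!
# DIR: residual multiplicities of the reduction are sums of orders (module of MP_8312c9_nt)
-/

set_option autoImplicit false

namespace Pool.Agent.Helper60.FF

open Polynomial

section

variable {p : ℕ} [hp : Fact p.Prime]

/-- reductions through the ring of integers -/
def dir_R (χ : Polynomial ℂ_[p]) (φ : Polynomial (RF p)) : Prop :=
  φ ≠ 0 ∧ ∃ (r : ℂ_[p]) (g : Polynomial (OO p)), r ≠ 0 ∧ g.map (OO p).subtype = C r * χ ∧
    g.map (IsLocalRing.residue (OO p)) = φ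

theorem dir_mul {χ χ' : Polynomial ℂ_[p]} {φ φ' : Polynomial (RF p)} (h : dir_R χ φ)
    (h' : dir_R χ' φ') : dir_R (χ * χ') (φ * φ') := by
  obtain ⟨h0, r, g, hr, hg, hφ⟩ := h
  obtain ⟨h0', r', g', hr', hg', hφ'⟩ := h'
  refine ⟨mul_ne_zero h0 h0', r * r', g * g', mul_ne_zero hr hr', ?_, ?_⟩
  · rw [Polynomial.map_mul, hg, hg', map_mul]
    ring
  · rw [Polynomial.map_mul, hφ, hφ']

theorem dir_C {χ : Polynomial ℂ_[p]} {φ : Polynomial (RF p)} (h : dir_R χ φ) {c : ℂ_[p]}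
    (hc : c ≠ 0) : dir_R (C c * χ) φ := by
  obtain ⟨h0, r, g, hr, hg, hφ⟩ := h
  refine ⟨h0, r / c, g, div_ne_zero hr hc, ?_, hφ⟩
  rw [hg, ← mul_assoc, ← map_mul, div_mul_cancel₀ _ hc]

theorem dir_one : dir_R (1 : Polynomial ℂ_[p]) 1 :=
  ⟨one_ne_zero, 1, 1, one_ne_zero, by simp, by simp⟩

theorem dir_aux {χ : Polynomial ℂ_[p]} {r r' : ℂ_[p]} {g g' : Polynomial (OO p)}
    (hr' : r' ≠ 0) (hg : g.map (OO p).subtype = C r * χ) (hg' : g'.map (OO p).subtype = C r' * χ)
    (hle : ‖r‖ ≤ ‖r'‖) : ∃ s : RF p, g.map (IsLocalRing.residue (OO p)) =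
      C s * g'.map (IsLocalRing.residue (OO p)) := by
  have h1 : ‖r / r'‖ ≤ 1 := by
    rw [norm_div]
    exact div_le_one_of_le₀ hle (norm_nonneg _)
  have h2 : g = C (⟨r / r', h1⟩ : OO p) * g' := by
    apply map_injective (OO p).subtype Subtype.coe_injective
    rw [Polynomial.map_mul, map_C, hg, hg', ← mul_assoc, ← map_mul]
    congr 2
    show r = r / r' * r'
    rw [div_mul_cancel₀ _ hr']
  refine ⟨IsLocalRing.residue (OO p) ⟨r / r', h1⟩, ?_⟩
  rw [h2, Polynomial.map_mul, map_C]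

theorem dir_unique {χ : Polynomial ℂ_[p]} {φ φ' : Polynomial (RF p)} (h : dir_R χ φ)
    (h' : dir_R χ φ') : ∃ s : RF p, s ≠ 0 ∧ φ = C s * φ' := by
  obtain ⟨h0, r, g, hr, hg, hφ⟩ := h
  obtain ⟨h0', r', g', hr', hg', hφ'⟩ := h'
  rcases le_total ‖r‖ ‖r'‖ with hle | hle
  · obtain ⟨s, hs⟩ := dir_aux hr' hg hg' hle
    rw [hφ, hφ'] at hs
    refine ⟨s, ?_, hs⟩
    rintro rfl
    rw [map_zero, zero_mul] at hs
    exact h0 hs
  · obtain ⟨s, hs⟩ := dir_aux hr hg' hg hle
    rw [hφ, hφ'] at hs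
    have hs0 : s ≠ 0 := by
      rintro rfl
      rw [map_zero, zero_mul] at hs
      exact h0' hs
    refine ⟨s⁻¹, inv_ne_zero hs0, ?_⟩
    rw [hs, ← mul_assoc, ← map_mul, inv_mul_cancel₀ hs0, map_one, one_mul]

theorem dir_lin_le {y : ℂ_[p]} (hy : ‖y‖ ≤ 1) : dir_R (X - C y) (X - C (res y)) := by
  refine ⟨X_sub_C_ne_zero _, 1, X - C (⟨y, hy⟩ : OO p), one_ne_zero, ?_, ?_⟩
  · rw [Polynomial.map_sub, map_X, map_C, map_one, one_mul]
    rfl
  · rw [Polynomial.map_sub, map_X, map_C, res_def hy]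

theorem dir_lin_gt {y : ℂ_[p]} (hy : ¬ ‖y‖ ≤ 1) : dir_R (X - C y) 1 := by
  have h1 : 1 < ‖y‖ := not_le.1 hy
  have hy0 : y ≠ 0 := by
    rintro rfl
    rw [norm_zero] at h1
    linarith
  have h2 : ‖y⁻¹‖ < 1 := by
    rw [norm_inv]
    exact inv_lt_one_of_one_lt₀ h1
  refine ⟨one_ne_zero, -y⁻¹, 1 - C (⟨y⁻¹, h2.le⟩ : OO p) * X, neg_ne_zero.2 (inv_ne_zero hy0), ?_, ?_⟩
  · rw [Polynomial.map_sub, Polynomial.map_one, Polynomial.map_mul, map_X, map_C, mul_sub, ← map_mul,
      neg_mul, inv_mul_cancel₀ hy0]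
    have : (OO p).subtype ⟨y⁻¹, h2.le⟩ = y⁻¹ := rfl
    rw [this, map_neg, map_neg, map_one]
    ring
  · rw [Polynomial.map_sub, Polynomial.map_one, Polynomial.map_mul, map_X, map_C, ← res_def h2.le,
      (res_eq_zero h2.le).2 h2, map_zero, zero_mul, sub_zero]

open Classical in
theorem dir_prod (s : Multiset ℂ_[p]) : dir_R (s.map fun y => X - C y).prod
    ((s.filter fun y => ‖y‖ ≤ 1).map fun y => X - C (res y)).prod := by
  induction s using Multiset.induction_on with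
  | empty => simpa using dir_one
  | cons y s ih =>
    rw [Multiset.map_cons, Multiset.prod_cons]
    by_cases hy : ‖y‖ ≤ 1
    · rw [Multiset.filter_cons_of_pos (p := fun y : ℂ_[p] => ‖y‖ ≤ 1) _ hy, Multiset.map_cons,
        Multiset.prod_cons]
      exact dir_mul (dir_lin_le hy) ih
    · rw [Multiset.filter_cons_of_neg (p := fun y : ℂ_[p] => ‖y‖ ≤ 1) _ hy]
      have := dir_mul (dir_lin_gt hy) ih
      rwa [one_mul] at this

theorem dir_rd {E : IntermediateField ℚ_[p] ℂ_[p]} {P : Polynomial ℂ_[p]} (hP : Int' E P)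
    (h0 : rd P ≠ 0) : dir_R P (rd P) := by
  refine ⟨h0, 1, ∑ j ∈ Finset.range (P.natDegree + 1), monomial j (⟨P.coeff j, (hP j).2⟩ : OO p),
    one_ne_zero, ?_, ?_⟩
  · rw [Polynomial.map_sum, map_one, one_mul]
    simp only [map_monomial]
    conv_rhs => rw [P.as_sum_range]
    rfl
  · rw [Polynomial.map_sum]
    simp only [map_monomial]
    ext n
    rw [finsetSum_coeff, coeff_rd]
    simp only [coeff_monomial]
    rw [Finset.sum_ite_eq']
    split_ifs with h
    · rw [res_def (hP n).2]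
    · have h2 : P.coeff n = 0 := coeff_eq_zero_of_natDegree_lt (by simpa [Nat.lt_succ_iff] using h)
      rw [h2, res_zero]

open Classical in
theorem dir_mult {E : IntermediateField ℚ_[p] ℂ_[p]} {P : Polynomial ℂ_[p]} (hP : Int' E P)
    (h0 : rd P ≠ 0) (w : RF p) : (rd P).rootMultiplicity w =
      Multiset.card (P.roots.filter fun y => ‖y‖ ≤ 1 ∧ res y = w) := by
  have hP0 : P ≠ 0 := by
    rintro rfl
    exact h0 (by ext n; rw [coeff_rd, coeff_zero, coeff_zero, res_zero])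
  have h1 : P = C P.leadingCoeff * (P.roots.map fun y => X - C y).prod :=
    (IsAlgClosed.splits P).eq_prod_roots
  have h2 := dir_C (dir_prod P.roots) (leadingCoeff_ne_zero.2 hP0)
  rw [← h1] at h2
  obtain ⟨s, hs, he⟩ := dir_unique (dir_rd hP h0) h2
  rw [← count_roots, he, roots_C_mul _ hs]
  have h3 : (((P.roots.filter fun y => ‖y‖ ≤ 1).map fun y => X - C (res y)).prod).roots =
      (P.roots.filter fun y => ‖y‖ ≤ 1).map res := by
    have := roots_multiset_prod_X_sub_C ((P.roots.filter fun y => ‖y‖ ≤ 1).map res)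
    rwa [Multiset.map_map] at this
  rw [h3, Multiset.count_map, Multiset.filter_filter]
  congr 1
  refine Multiset.filter_congr fun y _ => ?_
  exact ⟨fun h => ⟨h.2, h.1.symm⟩, fun h => ⟨h.2.symm, h.1⟩⟩

theorem dir_comp {K : Type} [Field K] (f : Polynomial K) (hf : f ≠ 0) {a b : K} (hb : b ≠ 0) (y : K) :
    (f.comp (C b * X + C a)).rootMultiplicity y = f.rootMultiplicity (b * y + a) := by
  obtain ⟨g, hg, hnd⟩ := exists_eq_pow_rootMultiplicity_mul_and_not_dvd f hf (b * y + a)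
  set m := f.rootMultiplicity (b * y + a) with hm
  have hgv : g.eval (b * y + a) ≠ 0 := fun h => hnd (dvd_iff_isRoot.2 h)
  have h1 : f.comp (C b * X + C a) = (X - C y) ^ m * (C (b ^ m) * g.comp (C b * X + C a)) := by
    conv_lhs => rw [hg]
    rw [mul_comp, pow_comp, sub_comp, X_comp, C_comp]
    have : (C b * X + C a - C (b * y + a) : Polynomial K) = C b * (X - C y) := by
      rw [map_add, map_mul]
      ring
    rw [this, mul_pow, ← C_pow]
    ring
  have h2 : (C (b ^ m) * g.comp (C b * X + C a)).eval y ≠ 0 := by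
    rw [eval_mul, eval_C, eval_comp]
    simp only [eval_add, eval_mul, eval_C, eval_X]
    exact mul_ne_zero (pow_ne_zero _ hb) hgv
  have h3 : C (b ^ m) * g.comp (C b * X + C a) ≠ 0 := by
    intro h
    rw [h, eval_zero] at h2
    exact h2 rfl
  rw [h1, rootMultiplicity_mul (mul_ne_zero (pow_ne_zero _ (X_sub_C_ne_zero y)) h3),
    rootMultiplicity_X_sub_C_pow, rootMultiplicity_eq_zero h2, add_zero]

theorem dir_root {A : Subfield ℂ_[p]} (hA : IsAlgClosed A) (f : Polynomial A) (hf : f ≠ 0) {τ : ℂ_[p]}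
    (h : f.eval₂ A.subtype τ = 0) : τ ∈ A := by
  have h1 := (IsAlgClosed.splits f).roots_map A.subtype
  have h2 : τ ∈ (f.map A.subtype).roots := by
    rw [mem_roots ((Polynomial.map_ne_zero_iff A.subtype.injective).2 hf), IsRoot.def, eval_map]
    exact h
  rw [h1, Multiset.mem_map] at h2
  obtain ⟨a, -, ha⟩ := h2
  rw [← ha]
  exact a.2

theorem dir_inf {A : Subfield ℂ_[p]} (hc : (A : Set ℂ_[p]).Countable) {a ϖ : ℂ_[p]} (hϖ : ϖ ≠ 0) :
    {y : ℂ_[p] | ϖ * y + a ∉ A}.Infinite := by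
  intro hfin
  have h1 : {y : ℂ_[p] | ϖ * y + a ∈ A}.Countable := by
    have : {y : ℂ_[p] | ϖ * y + a ∈ A} = (fun y => ϖ * y + a) ⁻¹' (A : Set ℂ_[p]) := rfl
    rw [this]
    refine hc.preimage_of_injOn ?_
    intro x _ y _ hxy
    have h3 : ϖ * x = ϖ * y := add_right_cancel hxy
    exact mul_left_cancel₀ hϖ h3
  have h2 : (Set.univ : Set ℂ_[p]).Countable := by
    have : (Set.univ : Set ℂ_[p]) = {y : ℂ_[p] | ϖ * y + a ∈ A} ∪ {y : ℂ_[p] | ϖ * y + a ∉ A} := by
      ext y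
      simp [em]
    rw [this]
    exact h1.union hfin.countable
  have h3 : (Set.range (algebraMap ℚ_[p] ℂ_[p])).Countable := h2.mono (Set.subset_univ _)
  have h4 : (Set.univ : Set ℚ_[p]).Countable := by
    rw [← Set.image_univ] at h3
    exact Set.countable_of_injective_of_countable_image
      (algebraMap ℚ_[p] ℂ_[p]).injective.injOn h3
  have h5 := continuum_le_cardinal_of_nontriviallyNormedField ℚ_[p]
  have h6 : Cardinal.mk ℚ_[p] ≤ Cardinal.aleph0 := by
    rw [Cardinal.mk_le_aleph0_iff]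
    exact Set.countable_univ_iff.1 h4
  exact absurd (h5.trans h6) (not_le.2 Cardinal.aleph0_lt_continuum)

end

theorem st_DIR : ST_DIR := by
  classical
  intro p _ A hA hc E κ a ϖ h P Q hϖ hh hR w hord
  have hϖ' : (ϖ : ℂ_[p]) ≠ 0 := fun h => hϖ (Subtype.ext h)
  rw [dir_mult hR.cP hR.rP, dir_mult hR.cQ hR.rQ]
  have hP0 : P ≠ 0 := by
    rintro rfl
    exact hR.rP (by ext n; rw [coeff_rd, coeff_zero, coeff_zero, res_zero])
  have hQ0 : Q ≠ 0 := by
    rintro rfl
    exact hR.rQ (by ext n; rw [coeff_rd, coeff_zero, coeff_zero, res_zero])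
  have hn0 : h.num ≠ 0 := RatFunc.num_ne_zero hh
  have hd0 : h.denom ≠ 0 := h.denom_ne_zero
  set L : Polynomial ℂ_[p] := C (ϖ : ℂ_[p]) * X + C (a : ℂ_[p]) with hL
  -- the identity
  have hid : (h.num.map A.subtype).comp L * Q = C κ * P * (h.denom.map A.subtype).comp L := by
    apply eq_of_infinite_eval_eq
    refine (dir_inf hc (a := (a : ℂ_[p])) hϖ').mono ?_
    intro y hy
    have h1 := (hR.eq _ hy).2.2
    have h2 : ((ϖ : ℂ_[p]) * y + (a : ℂ_[p]) - (a : ℂ_[p])) / (ϖ : ℂ_[p]) = y := by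
      rw [add_sub_cancel_right, mul_div_cancel_left₀ _ hϖ']
    rw [h2] at h1
    have h3 : h.denom.eval₂ A.subtype ((ϖ : ℂ_[p]) * y + (a : ℂ_[p])) ≠ 0 := fun h3 =>
      hy (dir_root hA _ hd0 h3)
    have h4 : ev A ((ϖ : ℂ_[p]) * y + (a : ℂ_[p])) h =
        h.num.eval₂ A.subtype ((ϖ : ℂ_[p]) * y + (a : ℂ_[p])) /
          h.denom.eval₂ A.subtype ((ϖ : ℂ_[p]) * y + (a : ℂ_[p])) := rfl
    rw [h4, div_mul_eq_mul_div, div_eq_iff h3] at h1
    show eval y _ = eval y _
    rw [eval_mul, eval_mul, eval_mul, eval_C, eval_comp, eval_comp, eval_map, eval_map]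
    have h5 : eval y L = (ϖ : ℂ_[p]) * y + (a : ℂ_[p]) := by
      rw [hL, eval_add, eval_mul, eval_C, eval_X, eval_C]
    rw [h5]
    exact h1
  have hN0 : h.num.map A.subtype ≠ 0 := (Polynomial.map_ne_zero_iff A.subtype.injective).2 hn0
  have hD0 : h.denom.map A.subtype ≠ 0 := (Polynomial.map_ne_zero_iff A.subtype.injective).2 hd0
  have hL1 : L.natDegree ≠ 0 := by
    rw [hL, natDegree_linear hϖ']
    exact one_ne_zero
  have hNL : (h.num.map A.subtype).comp L ≠ 0 := by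
    intro h1
    rcases comp_eq_zero_iff.1 h1 with h2 | h2
    · exact hN0 h2
    · apply hL1
      rw [h2.2, natDegree_C]
  have hDL : (h.denom.map A.subtype).comp L ≠ 0 := by
    intro h1
    rcases comp_eq_zero_iff.1 h1 with h2 | h2
    · exact hD0 h2
    · apply hL1
      rw [h2.2, natDegree_C]
  -- root multiplicities
  have key : ∀ y : ℂ_[p], ‖y‖ ≤ 1 → res y = w → P.roots.count y = Q.roots.count y := by
    intro y hy hyw
    rw [count_roots, count_roots]
    have h1 := congrArg (rootMultiplicity y) hid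
    rw [rootMultiplicity_mul (mul_ne_zero hNL hQ0), rootMultiplicity_mul
      (mul_ne_zero (mul_ne_zero (C_ne_zero.2 hR.κ0) hP0) hDL), rootMultiplicity_mul
      (mul_ne_zero (C_ne_zero.2 hR.κ0) hP0), rootMultiplicity_C, hL, dir_comp _ hN0 hϖ',
      dir_comp _ hD0 hϖ'] at h1
    have h2 : (h.num.map A.subtype).rootMultiplicity ((ϖ : ℂ_[p]) * y + (a : ℂ_[p])) =
        (h.denom.map A.subtype).rootMultiplicity ((ϖ : ℂ_[p]) * y + (a : ℂ_[p])) := by
      by_cases hmem : (ϖ : ℂ_[p]) * y + (a : ℂ_[p]) ∈ A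
      · have h3 := hord ⟨_, hmem⟩ (by
          show ‖((ϖ : ℂ_[p]) * y + (a : ℂ_[p]) - (a : ℂ_[p])) / (ϖ : ℂ_[p])‖ ≤ 1
          rw [add_sub_cancel_right, mul_div_cancel_left₀ _ hϖ']
          exact hy) (by
          show res (((ϖ : ℂ_[p]) * y + (a : ℂ_[p]) - (a : ℂ_[p])) / (ϖ : ℂ_[p])) = w
          rw [add_sub_cancel_right, mul_div_cancel_left₀ _ hϖ']
          exact hyw)
        unfold ordv at h3
        rw [eq_rootMultiplicity_map (f := A.subtype) A.subtype.injective,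
          eq_rootMultiplicity_map (p := h.denom) (f := A.subtype) A.subtype.injective] at h3
        have h4 : A.subtype ⟨(ϖ : ℂ_[p]) * y + (a : ℂ_[p]), hmem⟩ = (ϖ : ℂ_[p]) * y + (a : ℂ_[p]) :=
          rfl
        rw [h4] at h3
        omega
      · rw [rootMultiplicity_eq_zero, rootMultiplicity_eq_zero]
        · intro h3
          rw [IsRoot.def, eval_map] at h3
          exact hmem (dir_root hA _ hd0 h3)
        · intro h3
          rw [IsRoot.def, eval_map] at h3
          exact hmem (dir_root hA _ hn0 h3)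
    rw [h2] at h1
    omega
  congr 1
  ext y
  rw [Multiset.count_filter, Multiset.count_filter]
  split_ifs with hy
  · exact key y hy.1 hy.2
  · rfl

end Pool.Agent.Helper60.FF
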