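import Pool.Agent.Helper60.FF.DefsA

/-!
# L2C: the constancy criterion (module of MP_8312c9_nt)
-/

set_option autoImplicit false

namespace Pool.Agent.Helper60.FF

open Polynomial

theorem l2c_eval_sp {F : Type} [Field F] (w : F) (T : Polynomial (Polynomial F)) (i : ℕ) :
    (T.eval (i : Polynomial F)).eval w = (sp w T).eval (i : F) := by
  unfold sp
  rw [eval_natCast_map]
  rfl

theorem l2c_natDegree_dY {F : Type} [Field F] (T : Polynomial (Polynomial F)) :
    (dY T).natDegree ≤ T.natDegree := by
  rw [natDegree_le_iff_coeff_eq_zero]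
  intro N hN
  rw [coeff_dY, coeff_eq_zero_of_natDegree_lt hN, derivative_zero]

theorem l2c_deriv {F : Type} [Field F] (T : Polynomial (Polynomial F)) (i : ℕ) :
    (dY T).eval (i : Polynomial F) = derivative (T.eval (i : Polynomial F)) := by
  rw [eval_eq_sum_range' (Nat.lt_succ_of_le (l2c_natDegree_dY T)),
    eval_eq_sum_range' (Nat.lt_succ_self T.natDegree), derivative_sum]
  refine Finset.sum_congr rfl fun j _ => ?_
  rw [coeff_dY, derivative_mul, derivative_pow, derivative_natCast, mul_zero, mul_zero, add_zero]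

theorem l2c_content {F : Type} [Field F] : ∀ (N : ℕ) (T : Polynomial (Polynomial F)), T ≠ 0 →
    T.leadingCoeff.natDegree ≤ N →
    ∃ (P : Polynomial F) (T₁ : Polynomial (Polynomial F)), P ≠ 0 ∧ T = C P * T₁ ∧
      ∀ w : F, sp w T₁ ≠ 0 := by
  intro N
  induction N with
  | zero =>
    intro T hT hN
    by_cases h : ∀ w : F, sp w T ≠ 0
    · exact ⟨1, T, one_ne_zero, by rw [map_one, one_mul], h⟩
    · exfalso
      push Not at h
      obtain ⟨w, hw⟩ := h
      have h1 : T.leadingCoeff.eval w = 0 := by
        have := congrArg (fun q => coeff q T.natDegree) hw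
        simp only [sp, coeff_map, coeff_zero] at this
        exact this
      have h2 : T.leadingCoeff = C (T.leadingCoeff.coeff 0) :=
        eq_C_of_natDegree_le_zero hN
      rw [h2, eval_C] at h1
      rw [h1, map_zero] at h2
      exact hT (leadingCoeff_eq_zero.1 h2)
  | succ N ih =>
    intro T hT hN
    by_cases h : ∀ w : F, sp w T ≠ 0
    · exact ⟨1, T, one_ne_zero, by rw [map_one, one_mul], h⟩
    · push Not at h
      obtain ⟨w, hw⟩ := h
      have h1 : C (X - C w) ∣ T := by
        rw [C_dvd_iff_dvd_coeff]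
        intro j
        rw [dvd_iff_isRoot]
        have := congrArg (fun q => coeff q j) hw
        simp only [sp, coeff_map, coeff_zero] at this
        exact this
      obtain ⟨T', hT'⟩ := h1
      have hT'0 : T' ≠ 0 := by
        rintro rfl
        exact hT (by rw [hT', mul_zero])
      have hlc : T.leadingCoeff = (X - C w) * T'.leadingCoeff := by
        rw [hT', leadingCoeff_mul, leadingCoeff_C]
      have hdeg : T'.leadingCoeff.natDegree ≤ N := by
        rw [hlc, natDegree_mul (X_sub_C_ne_zero w) (leadingCoeff_ne_zero.2 hT'0),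
          natDegree_X_sub_C] at hN
        omega
      obtain ⟨P, T₁, hP, hPT, hT₁⟩ := ih T' hT'0 hdeg
      refine ⟨(X - C w) * P, T₁, mul_ne_zero (X_sub_C_ne_zero w) hP, ?_, hT₁⟩
      rw [hT', hPT, map_mul]
      ring

theorem l2c_card {F : Type} [Field F] (p n M : ℕ) [CharP F p] (hM : M ≤ p)
    (φ : Polynomial F) (hφ : φ ≠ 0) (hn : φ.natDegree ≤ n) (I : Finset ℕ) (hI : ∀ i ∈ I, i < M)
    (hIφ : ∀ i ∈ I, φ.eval (i : F) = 0) : I.card ≤ n := by
  classical
  have hinj : Set.InjOn (fun i : ℕ => (i : F)) I := by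
    intro a ha b hb hab
    exact CharP.natCast_injOn_Iio F p (lt_of_lt_of_le (hI a ha) hM) (lt_of_lt_of_le (hI b hb) hM) hab
  rw [← Finset.card_image_of_injOn hinj]
  calc (I.image fun i : ℕ => (i : F)).card ≤ φ.roots.toFinset.card := by
        apply Finset.card_le_card
        intro x hx
        obtain ⟨i, hi, rfl⟩ := Finset.mem_image.1 hx
        rw [Multiset.mem_toFinset, mem_roots hφ]
        exact hIφ i hi
    _ ≤ Multiset.card φ.roots := Multiset.toFinset_card_le _
    _ ≤ φ.natDegree := card_roots' φ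
    _ ≤ n := hn

/-- the coefficient of `y ^ d` as a polynomial in `X` -/
noncomputable def l2c_kap {F : Type} [Field F] (d : ℕ) (S : Polynomial (Polynomial F)) : Polynomial F :=
  ∑ j ∈ Finset.range (S.natDegree + 1), monomial j ((S.coeff j).coeff d)

theorem l2c_kap_coeff {F : Type} [Field F] (d : ℕ) (S : Polynomial (Polynomial F)) (j : ℕ) :
    (l2c_kap d S).coeff j = (S.coeff j).coeff d := by
  unfold l2c_kap
  rw [finsetSum_coeff]
  simp only [coeff_monomial]
  rw [Finset.sum_ite_eq']
  split_ifs with h
  · rfl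
  · have h2 : S.coeff j = 0 := coeff_eq_zero_of_natDegree_lt (by simpa [Nat.lt_succ_iff] using h)
    rw [h2, coeff_zero]

theorem l2c_kap_deg {F : Type} [Field F] (d : ℕ) (S : Polynomial (Polynomial F)) :
    (l2c_kap d S).natDegree ≤ S.natDegree := by
  rw [natDegree_le_iff_coeff_eq_zero]
  intro N hN
  rw [l2c_kap_coeff, coeff_eq_zero_of_natDegree_lt hN, coeff_zero]

theorem l2c_kap_eval {F : Type} [Field F] (d : ℕ) (S : Polynomial (Polynomial F)) (i : ℕ) :
    (S.eval (i : Polynomial F)).coeff d = (l2c_kap d S).eval (i : F) := by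
  rw [eval_eq_sum_range' (Nat.lt_succ_self S.natDegree),
    eval_eq_sum_range' (Nat.lt_succ_of_le (l2c_kap_deg d S)), finsetSum_coeff]
  refine Finset.sum_congr rfl fun j _ => ?_
  rw [l2c_kap_coeff, ← C_eq_natCast, ← C_pow, coeff_mul_C]

theorem l2c_deg_le {F : Type} [Field F] (d : ℕ) (S : Polynomial (Polynomial F)) (i : ℕ)
    (h : ∀ j, (S.coeff j).natDegree ≤ d) : (S.eval (i : Polynomial F)).natDegree ≤ d := by
  rw [natDegree_le_iff_coeff_eq_zero]
  intro N hN
  rw [l2c_kap_eval]
  have : l2c_kap N S = 0 := by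
    ext j
    rw [l2c_kap_coeff, coeff_eq_zero_of_natDegree_lt (lt_of_le_of_lt (h j) hN), coeff_zero]
  rw [this, eval_zero]

/-- multiplicities of the resultant -/
theorem l2c_mult {F : Type} [Field F] (A B R f : Polynomial F) (hR : R ≠ 0)
    (h : A * f + B * derivative f = R) (w : F)
    (h1 : f.rootMultiplicity w ≠ 1) : f.rootMultiplicity w ≤ 2 * R.rootMultiplicity w := by
  set μ := f.rootMultiplicity w with hμ
  have hd1 : (X - C w) ^ (μ - 1) ∣ f := (pow_dvd_pow _ (Nat.sub_le _ _)).trans
    (pow_rootMultiplicity_dvd f w)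
  have hd2 : (X - C w) ^ (μ - 1) ∣ derivative f := by
    obtain ⟨g, hg⟩ := pow_rootMultiplicity_dvd f w
    rw [← hμ] at hg
    rw [hg, derivative_mul, derivative_X_sub_C_pow]
    refine dvd_add ?_ ?_
    · exact Dvd.dvd.mul_right (Dvd.dvd.mul_left (dvd_refl _) _) _
    · exact Dvd.dvd.mul_right (pow_dvd_pow _ (Nat.sub_le _ _)) _
  have hd : (X - C w) ^ (μ - 1) ∣ R := by
    rw [← h]
    exact dvd_add (Dvd.dvd.mul_left hd1 _) (Dvd.dvd.mul_left hd2 _)
  have := (le_rootMultiplicity_iff hR).2 hd
  omega

theorem st_L2C (hF : ST_FACM) (hB : ST_RESB) : ST_L2C := by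
  classical
  intro F _ _ p n l hp hcp hl hnl hn hM T w₀ hT hTn hT2
  obtain ⟨P, T₁, hP, hPT, hT₁⟩ := l2c_content _ T hT le_rfl
  have hT₁0 : T₁ ≠ 0 := by
    rintro rfl
    exact hT (by rw [hPT, mul_zero])
  have hT₁n : T₁.natDegree ≤ n := by
    rw [hPT, natDegree_C_mul hP] at hTn
    exact hTn
  by_cases hc : ∃ j, 0 < (T₁.coeff j).natDegree
  swap
  · push Not at hc
    have hmap : (T₁.map (evalRingHom (0 : F))).map C = T₁ := by
      ext1 j
      rw [coeff_map, coeff_map]
      have h1 := eq_C_of_natDegree_le_zero (hc j)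
      rw [h1]
      simp
    refine ⟨P, T₁.map (evalRingHom 0), hP, ?_, ?_, ?_⟩
    · intro h
      rw [h, Polynomial.map_zero] at hmap
      exact hT₁0 hmap.symm
    · exact (natDegree_map_le).trans hT₁n
    · rw [hmap, hPT]
  exfalso
  obtain ⟨S, hSn, hSw, hSc, hSG, hSi⟩ := hF F p n l hp hcp hl hnl T₁ hT₁n hT₁ hc
  -- S depends on X
  have hSpos : 0 < S.natDegree := by
    rcases Nat.eq_zero_or_pos S.natDegree with h | h
    · exfalso
      have h1 : S = C (S.coeff 0) := eq_C_of_natDegree_le_zero h.le
      obtain ⟨j, hj⟩ := hSc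
      have hj0 : j = 0 := by
        by_contra hne
        rw [coeff_eq_zero_of_natDegree_lt (by omega), natDegree_zero] at hj
        exact lt_irrefl _ hj
      rw [hj0] at hj
      obtain ⟨w, hw⟩ := IsAlgClosed.exists_root (S.coeff 0)
        (natDegree_pos_iff_degree_pos.1 hj).ne'
      apply hSw w
      unfold sp
      rw [h1, map_C]
      have : evalRingHom w (S.coeff 0) = 0 := hw
      rw [this, map_zero]
    · exact h
  obtain ⟨j₀, hj₀, hmax⟩ := Finset.exists_max_image (Finset.range (S.natDegree + 1))
    (fun j => (S.coeff j).natDegree) ⟨0, by simp⟩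
  set d := (S.coeff j₀).natDegree with hd
  have hdj : ∀ j, (S.coeff j).natDegree ≤ d := by
    intro j
    by_cases h : j < S.natDegree + 1
    · exact hmax j (Finset.mem_range.2 h)
    · rw [coeff_eq_zero_of_natDegree_lt (by omega), natDegree_zero]
      exact Nat.zero_le _
  have hd0 : 0 < d := by
    obtain ⟨j, hj⟩ := hSc
    exact lt_of_lt_of_le hj (hdj j)
  obtain ⟨U, V, R, hR0, hUV, hRdeg⟩ := hB F d S hSpos hd0 hdj hSG
  have hkap : l2c_kap d S ≠ 0 := by
    intro h
    have h1 := l2c_kap_coeff d S j₀
    rw [h, coeff_zero] at h1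
    have h2 : (S.coeff j₀).leadingCoeff = 0 := h1.symm
    rw [leadingCoeff_eq_zero] at h2
    rw [hd, h2, natDegree_zero] at hd0
    exact lt_irrefl _ hd0
  set M := 4 * n ^ 2 + 2 * n with hMdef
  set I : Finset ℕ := (Finset.range M).filter
    (fun i : ℕ => (sp w₀ T₁).eval (i : F) ≠ 0 ∧ (l2c_kap d S).eval (i : F) ≠ 0) with hI
  have hIlt : ∀ i ∈ I, i < M := fun i hi => Finset.mem_range.1 (Finset.mem_filter.1 hi).1
  have hspn : ∀ w : F, (sp w T₁).natDegree ≤ n := fun w => (natDegree_map_le).trans hT₁n
  have hcard : 4 * n ^ 2 ≤ I.card := by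
    have h1 : ((Finset.range M).filter (fun i : ℕ => (sp w₀ T₁).eval (i : F) = 0)).card ≤ n := by
      refine l2c_card p n M hM (sp w₀ T₁) (hT₁ w₀) (hspn w₀) _ ?_ ?_
      · intro i hi
        exact Finset.mem_range.1 (Finset.mem_filter.1 hi).1
      · intro i hi
        exact (Finset.mem_filter.1 hi).2
    have h2 : ((Finset.range M).filter (fun i : ℕ => (l2c_kap d S).eval (i : F) = 0)).card ≤ n := by
      refine l2c_card p n M hM (l2c_kap d S) hkap ((l2c_kap_deg d S).trans hSn) _ ?_ ?_
      · intro i hi
        exact Finset.mem_range.1 (Finset.mem_filter.1 hi).1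
      · intro i hi
        exact (Finset.mem_filter.1 hi).2
    have h3 : Finset.range M ⊆ I ∪ ((Finset.range M).filter (fun i : ℕ => (sp w₀ T₁).eval (i : F) = 0) ∪
        (Finset.range M).filter (fun i : ℕ => (l2c_kap d S).eval (i : F) = 0)) := by
      intro i hi
      rw [Finset.mem_union, Finset.mem_union, Finset.mem_filter, Finset.mem_filter,
        Finset.mem_filter]
      by_cases ha : (sp w₀ T₁).eval (i : F) = 0
      · exact Or.inr (Or.inl ⟨hi, ha⟩)
      · by_cases hb : (l2c_kap d S).eval (i : F) = 0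
        · exact Or.inr (Or.inr ⟨hi, hb⟩)
        · exact Or.inl ⟨hi, ha, hb⟩
    have h4 := Finset.card_le_card h3
    rw [Finset.card_range] at h4
    have h5 := Finset.card_union_le I ((Finset.range M).filter (fun i : ℕ => (sp w₀ T₁).eval (i : F) = 0) ∪
        (Finset.range M).filter (fun i : ℕ => (l2c_kap d S).eval (i : F) = 0))
    have h6 := Finset.card_union_le
      ((Finset.range M).filter (fun i : ℕ => (sp w₀ T₁).eval (i : F) = 0))
      ((Finset.range M).filter (fun i : ℕ => (l2c_kap d S).eval (i : F) = 0))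
    omega
  -- the multiplicities
  have hTi : ∀ i : ℕ, T.eval (i : Polynomial F) = P * T₁.eval (i : Polynomial F) := by
    intro i
    rw [hPT, eval_mul, eval_C]
  have hkey : ∀ i ∈ I, T₁.eval (i : Polynomial F) ≠ 0 ∧
      ∀ w : F, l ∣ (T₁.eval (i : Polynomial F)).rootMultiplicity w := by
    intro i hi
    have hi' := (Finset.mem_filter.1 hi).2.1
    have hne : T₁.eval (i : Polynomial F) ≠ 0 := by
      intro h
      rw [← l2c_eval_sp, h, eval_zero] at hi'
      exact hi' rfl
    refine ⟨hne, fun w => ?_⟩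
    by_cases hw : w = w₀
    · have : (T₁.eval (i : Polynomial F)).rootMultiplicity w = 0 := by
        apply rootMultiplicity_eq_zero
        rw [IsRoot.def, l2c_eval_sp, hw]
        exact hi'
      rw [this]
      exact dvd_zero _
    · -- choose j with T₁(w;j) nonzero
      obtain ⟨j, hjM, hj⟩ : ∃ j : ℕ, j < M ∧ (sp w T₁).eval (j : F) ≠ 0 := by
        by_contra hcon
        push Not at hcon
        have h1 := l2c_card p n M hM (sp w T₁) (hT₁ w) (hspn w) (Finset.range M)
          (fun i hi => Finset.mem_range.1 hi) (fun i hi => hcon i (Finset.mem_range.1 hi))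
        rw [Finset.card_range] at h1
        have : 0 < n ^ 2 := pow_pos hn 2
        omega
      have hjne : T₁.eval (j : Polynomial F) ≠ 0 := by
        intro h
        rw [← l2c_eval_sp, h, eval_zero] at hj
        exact hj rfl
      have h1 := hT2 w hw i j (hIlt i hi) hjM (by rw [hTi]; exact mul_ne_zero hP hne)
        (by rw [hTi]; exact mul_ne_zero hP hjne)
      rw [hTi, hTi, rootMultiplicity_mul (mul_ne_zero hP hne),
        rootMultiplicity_mul (mul_ne_zero hP hjne)] at h1
      have h2 : (T₁.eval (j : Polynomial F)).rootMultiplicity w = 0 := by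
        apply rootMultiplicity_eq_zero
        rw [IsRoot.def, l2c_eval_sp]
        exact hj
      rw [h2] at h1
      push_cast at h1
      have h3 : ((P.rootMultiplicity w : ℤ) + (T₁.eval (i : Polynomial F)).rootMultiplicity w -
          (P.rootMultiplicity w + 0)) = ((T₁.eval (i : Polynomial F)).rootMultiplicity w : ℤ) := by
        ring
      rw [h3] at h1
      exact_mod_cast h1
  have hstep : ∀ i ∈ I, d ≤ ∑ w ∈ R.roots.toFinset,
      if (sp w S).eval (i : F) = 0 then 2 * R.rootMultiplicity w else 0 := by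
    intro i hi
    obtain ⟨hne, hdiv⟩ := hkey i hi
    obtain ⟨hS0, -, hS1⟩ := hSi i hne
    have hS1' := hS1 hdiv
    set f := S.eval (i : Polynomial F) with hf
    have hfd : f.natDegree = d := by
      apply le_antisymm (l2c_deg_le d S i hdj)
      apply le_natDegree_of_ne_zero
      rw [l2c_kap_eval]
      exact (Finset.mem_filter.1 hi).2.2
    have hres : U.eval (i : Polynomial F) * f + V.eval (i : Polynomial F) * derivative f = R := by
      have h1 := congrArg (fun q => eval (i : Polynomial F) q) hUV
      simp only [eval_add, eval_mul, eval_C] at h1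
      rw [l2c_deriv] at h1
      exact h1
    have hroots : Multiset.card f.roots = f.natDegree :=
      (IsAlgClosed.splits f).natDegree_eq_card_roots.symm
    have hm : ∀ w ∈ f.roots.toFinset, f.rootMultiplicity w ≤ 2 * R.rootMultiplicity w := by
      intro w hw
      rw [Multiset.mem_toFinset, mem_roots hS0] at hw
      exact l2c_mult _ _ R f hR0 hres w (hS1' w)
    calc d = Multiset.card f.roots := by rw [hroots, hfd]
      _ = ∑ w ∈ f.roots.toFinset, f.roots.count w := (Multiset.toFinset_sum_count_eq _).symm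
      _ ≤ ∑ w ∈ f.roots.toFinset, 2 * R.rootMultiplicity w := by
          apply Finset.sum_le_sum
          intro w hw
          rw [count_roots]
          exact hm w hw
      _ ≤ ∑ w ∈ R.roots.toFinset.filter (fun w => (sp w S).eval (i : F) = 0),
            2 * R.rootMultiplicity w := by
          apply Finset.sum_le_sum_of_subset
          intro w hw
          have h1 := hm w hw
          rw [Multiset.mem_toFinset, mem_roots hS0] at hw
          have h2 := (rootMultiplicity_pos hS0).2 hw
          rw [Finset.mem_filter, Multiset.mem_toFinset, mem_roots hR0,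
            ← rootMultiplicity_pos hR0]
          refine ⟨by omega, ?_⟩
          rw [← l2c_eval_sp]
          exact hw
      _ = _ := by rw [Finset.sum_filter]
  have hsum : I.card * d ≤ 2 * S.natDegree * R.natDegree := by
    calc I.card * d = ∑ i ∈ I, d := by rw [Finset.sum_const, smul_eq_mul]
      _ ≤ ∑ i ∈ I, ∑ w ∈ R.roots.toFinset,
            if (sp w S).eval (i : F) = 0 then 2 * R.rootMultiplicity w else 0 :=
          Finset.sum_le_sum hstep
      _ = ∑ w ∈ R.roots.toFinset, ∑ i ∈ I,
            if (sp w S).eval (i : F) = 0 then 2 * R.rootMultiplicity w else 0 := Finset.sum_comm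
      _ ≤ ∑ w ∈ R.roots.toFinset, S.natDegree * (2 * R.rootMultiplicity w) := by
          apply Finset.sum_le_sum
          intro w hw
          rw [← Finset.sum_filter, Finset.sum_const, smul_eq_mul]
          apply Nat.mul_le_mul_right
          refine l2c_card p S.natDegree M hM (sp w S) (hSw w) natDegree_map_le _ ?_ ?_
          · intro i hi
            exact hIlt i (Finset.mem_filter.1 hi).1
          · intro i hi
            exact (Finset.mem_filter.1 hi).2
      _ = 2 * S.natDegree * ∑ w ∈ R.roots.toFinset, R.roots.count w := by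
          rw [Finset.mul_sum]
          refine Finset.sum_congr rfl fun w _ => ?_
          rw [count_roots]
          ring
      _ = 2 * S.natDegree * Multiset.card R.roots := by rw [Multiset.toFinset_sum_count_eq]
      _ ≤ 2 * S.natDegree * R.natDegree := Nat.mul_le_mul_left _ (card_roots' R)
  have h1 : 4 * n ^ 2 * d ≤ I.card * d := Nat.mul_le_mul_right _ hcard
  have h2 : 2 * S.natDegree * R.natDegree < 2 * S.natDegree * (2 * S.natDegree * d) :=
    Nat.mul_lt_mul_of_pos_left hRdeg (by omega)
  have h3 : 2 * S.natDegree * (2 * S.natDegree * d) ≤ 4 * n ^ 2 * d := by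
    have : S.natDegree ^ 2 ≤ n ^ 2 := Nat.pow_le_pow_left hSn 2
    calc 2 * S.natDegree * (2 * S.natDegree * d) = 4 * S.natDegree ^ 2 * d := by ring
      _ ≤ 4 * n ^ 2 * d := Nat.mul_le_mul_right _ (Nat.mul_le_mul_left _ this)
  omega

end Pool.Agent.Helper60.FF
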