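import Pool.Agent.Helper60.FF.StmtsC

/-!
# P1: the reduction of `χ τ` is a rational function of the residue of `τ` (module of MP_8312c9_nt)
-/

set_option autoImplicit false

namespace Pool.Agent.Helper60.FF

open Polynomial

section

variable {p : ℕ} [hp : Fact p.Prime]

theorem p1_lift (K : Subfield (RF p)) (P : Polynomial (RF p)) (h : ∀ j, P.coeff j ∈ K) :
    ∃ P' : Polynomial K, P'.map (algebraMap K (RF p)) = P := by
  refine ⟨∑ j ∈ Finset.range (P.natDegree + 1), monomial j (⟨P.coeff j, h j⟩ : K), ?_⟩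
  rw [Polynomial.map_sum]
  simp only [map_monomial]
  conv_rhs => rw [P.as_sum_range]
  rfl

theorem p1_eval_mem (K : Subfield (RF p)) (P : Polynomial (RF p)) (h : ∀ j, P.coeff j ∈ K) {w : RF p}
    (hw : w ∈ K) : P.eval w ∈ K := by
  rw [eval_eq_sum_range]
  exact sum_mem fun j _ => mul_mem (h j) (pow_mem hw j)

theorem p1_deriv_mem (K : Subfield (RF p)) (P : Polynomial (RF p)) (h : ∀ j, P.coeff j ∈ K) (j : ℕ) :
    (derivative P).coeff j ∈ K := by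
  rw [coeff_derivative]
  exact mul_mem (h _) (add_mem (natCast_mem K j) (one_mem K))

theorem p1_rd_mem {E : IntermediateField ℚ_[p] ℂ_[p]} {E' : IntermediateField ℚ_[p] ℂ_[p]} {π : ℂ_[p]}
    {f : ℕ} (hL : LF E' π f) (hE : E ≤ E') {P : Polynomial ℂ_[p]} (hP : Int' E P) (j : ℕ) :
    (rd P).coeff j ∈ Fq p f := by
  rw [coeff_rd, mem_Fq]
  exact hL.rs _ (hE (hP j).1) (hP j).2

theorem p1_sy_congr {F : Type} [Field F] {n : ℕ} {w e : F} {A A' : Bool → ℕ → F} {χ ψ : Polynomial F}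
    (h : ∀ b i, i ≤ 2 * n → A b i = A' b i) (hS : Sy n w e A χ ψ) : Sy n w e A' χ ψ :=
  ⟨hS.1, hS.2.1, fun b i hi => by rw [hS.2.2 b i hi, h b i hi]⟩

theorem p1_ov_nat (A : Subfield ℂ_[p]) (E : IntermediateField ℚ_[p] ℂ_[p]) (F : Subfield (RatFunc A))
    (hF : ∀ c, c ∈ F ↔ Ov A E c) (a ϖ : A) (ha : (a : ℂ_[p]) ∈ E) (hϖ : (ϖ : ℂ_[p]) ∈ E)
    (b : Bool) (i : ℕ) : Ov A E (cc A a ϖ b i) := by
  rw [← hF]
  have hC : ∀ c : A, (c : ℂ_[p]) ∈ E → RatFunc.C c ∈ F := by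
    intro c hc
    rw [hF]
    refine ⟨C c, 1, one_ne_zero, ?_, ?_, ?_⟩
    · intro j
      rw [coeff_C]
      split_ifs
      · exact hc
      · exact E.zero_mem
    · intro j
      rw [coeff_one]
      split_ifs
      · exact E.one_mem
      · exact E.zero_mem
    · rw [map_one, mul_one, RatFunc.algebraMap_C]
  have hX : (RatFunc.X : RatFunc A) ∈ F := by
    rw [hF]
    refine ⟨X, 1, one_ne_zero, ?_, ?_, ?_⟩
    · intro j
      rw [coeff_X]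
      split_ifs
      · exact E.one_mem
      · exact E.zero_mem
    · intro j
      rw [coeff_one]
      split_ifs
      · exact E.one_mem
      · exact E.zero_mem
    · rw [map_one, mul_one, RatFunc.algebraMap_X]
  unfold cc yy
  refine add_mem ?_ (natCast_mem F i)
  split_ifs
  · exact div_mem (sub_mem hX (hC a ha)) (hC ϖ hϖ)
  · exact zero_mem F

/-- the linear system and FINF for one disc -/
theorem p1_star (h1 : ST_P1A) (h2 : ST_FINQ) (hTRA : ST_TRA) {n : ℕ} (hPP : PP p n) (K : KD p n)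
    (a ϖ : K.A) (hϖ : ϖ ≠ 0) (Em : IntermediateField ℚ_[p] ℂ_[p]) (hfin : FiniteDimensional ℚ_[p] Em)
    (hE0 : K.E₀ ≤ Em) (ha : (a : ℂ_[p]) ∈ Em) (hϖm : (ϖ : ℂ_[p]) ∈ Em)
    (κ κ' : Bool → ℕ → ℂ_[p]) (P Q P' Q' : Bool → ℕ → Polynomial ℂ_[p])
    (hR : ∀ b i, Rdx Em (κ b i) (K.H p (cc K.A a ϖ b i)) a ϖ (P b i) (Q b i))
    (hR' : ∀ b i, Rdx Em (κ' b i) (K.H (4 * n + 2) (cc K.A a ϖ b i)) a ϖ (P' b i) (Q' b i))
    (E₁ : IntermediateField ℚ_[p] ℂ_[p]) (π₁ : ℂ_[p]) (f₁ : ℕ) (hL₁ : LF E₁ π₁ f₁) (hE₁ : Em ≤ E₁)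
    (E : IntermediateField ℚ_[p] ℂ_[p]) (π : ℂ_[p]) (f M : ℕ) (hL : LF E π f) (hE : E₁ ≤ E)
    (hM : 0 < M) (hdvd : 4 * n + 2 ∣ M) (hπ : ‖π‖ ^ M = ‖π₁‖) (ζ : ℂ_[p]) (hζ : ζ ∈ E) (hζ1 : ‖ζ‖ ≤ 1)
    (hζ2 : ζ ^ (p ^ f) = ζ)
    (hB : ∀ b i, i ≤ 2 * n → (rd (P b i)).eval (res ζ) ≠ 0 ∧ (rd (Q b i)).eval (res ζ) ≠ 0 ∧
      (rd (P' b i)).eval (res ζ) ≠ 0 ∧ (rd (Q' b i)).eval (res ζ) ≠ 0) :
    ∃ (χ₀ ψ₁ : Polynomial (RF p)) (Z : Finset (RF p)), χ₀ ≠ 0 ∧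
      Sy n (res ζ) 1 (fun b i => (derivative (rd (P b i))).eval (res ζ) / (rd (P b i)).eval (res ζ) -
            (derivative (rd (Q b i))).eval (res ζ) / (rd (Q b i)).eval (res ζ)) χ₀ ψ₁ ∧
      Z.card ≤ 2 * n + 1 ∧ ∀ z ∈ E, ‖z‖ ≤ 1 → res z ∉ Z → ∀ τ ∈ E, τ ∉ K.A →
      ‖(τ - (a : ℂ_[p])) / (ϖ : ℂ_[p]) - ζ - π * z‖ ≤ ‖π‖ ^ 2 →
      ∃ s : RF p, s ≠ 0 ∧ Red (K.χ τ) (C s * χ₀) := by
  have hϖ' : (ϖ : ℂ_[p]) ≠ 0 := fun h => hϖ (Subtype.ext h)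
  have hEmE : Em ≤ E := hE₁.trans hE
  obtain ⟨α, c, hα, hc, hmain⟩ := h1 p n hPP K a ϖ hϖ Em hfin hE0 ha hϖm κ κ' P Q P' Q'
    (fun b i _ => hR b i) (fun b i _ => hR' b i) E₁ π₁ f₁ hL₁ hE₁ E π f M hL hE hM hdvd hπ ζ hζ hζ1 hζ2 hB
  set ω : Bool → ℕ → RF p := fun b i =>
    (derivative (rd (P b i))).eval (res ζ) / (rd (P b i)).eval (res ζ) -
            (derivative (rd (Q b i))).eval (res ζ) / (rd (Q b i)).eval (res ζ) with hω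
  have hw : res ζ ∈ Fq p f := hL.rs _ hζ hζ1
  have hωF : ∀ b i, ω b i ∈ Fq p f := by
    intro b i
    have hPm := p1_rd_mem hL hEmE (hR b i).cP
    have hQm := p1_rd_mem hL hEmE (hR b i).cQ
    exact sub_mem (div_mem (p1_eval_mem _ _ (p1_deriv_mem _ _ hPm) hw) (p1_eval_mem _ _ hPm hw))
      (div_mem (p1_eval_mem _ _ (p1_deriv_mem _ _ hQm) hw) (p1_eval_mem _ _ hQm hw))
  obtain ⟨χ₀, ψ₁, Z, hχ₀, hSy, hZ, hfin2⟩ := h2 p n f hPP hL.fpos (res ζ) α ω c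
    (fun z χ ψ => ∃ z' ∈ E, ‖z'‖ ≤ 1 ∧ res z' = z ∧ ∃ τ ∈ E, τ ∉ K.A ∧
      ‖(τ - (a : ℂ_[p])) / (ϖ : ℂ_[p]) - ζ - π * z'‖ ≤ ‖π‖ ^ 2 ∧ Red (K.χ τ) χ ∧
      (∀ j, χ.coeff j ∈ Fq p f) ∧ (∀ j, ψ.coeff j ∈ Fq p f) ∧
      Sy n (res ζ) (res z') (fun b i => α b i + res z' * ω b i) χ ψ ∧
      ∀ i j : ℕ, i ≤ n → j ≤ n → χ.eval (i : RF p) ≠ 0 → χ.eval (j : RF p) ≠ 0 → ∃ s ∈ Fq p f, s ≠ 0 ∧
        χ.eval (i : RF p) = c i j * χ.eval (j : RF p) * s ^ (4 * n + 2))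
    hw (fun b i _ => ⟨hα b i, hωF b i⟩) hc
    (by
      intro z hz
      obtain ⟨z', hz', -, hz1, hz2⟩ := hL.tei z hz
      have hxE : (a : ℂ_[p]) + ϖ * (ζ + π * z') ∈ E :=
        add_mem (hEmE ha) (mul_mem (hEmE hϖm) (add_mem hζ (mul_mem hL.mem hz')))
      obtain ⟨τ, hτ, hτA, hτn⟩ := hTRA p K.A K.cnt E hL.fin _ hxE (‖(ϖ : ℂ_[p])‖ * ‖π‖ ^ 2)
        (mul_pos (norm_pos_iff.2 hϖ') (pow_pos hL.pos 2))
      have hτ2 : ‖(τ - (a : ℂ_[p])) / (ϖ : ℂ_[p]) - ζ - π * z'‖ ≤ ‖π‖ ^ 2 := by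
        have : (τ - (a : ℂ_[p])) / (ϖ : ℂ_[p]) - ζ - π * z' =
            (τ - ((a : ℂ_[p]) + ϖ * (ζ + π * z'))) / (ϖ : ℂ_[p]) := by
          field_simp
          ring
        rw [this, norm_div, div_le_iff₀ (norm_pos_iff.2 hϖ'), mul_comm (‖π‖ ^ 2)]
        exact hτn.le
      obtain ⟨χ, ψ, hred, hc1, hc2, hc3, hc4⟩ := hmain z' hz' hz1 τ hτ hτA hτ2
      exact ⟨χ, ψ, z', hz', hz1, hz2, τ, hτ, hτA, hτ2, hred, hc1, hc2, hc3, hc4⟩)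
    (by
      rintro z hz χ ψ ⟨z', hz', hz1, rfl, τ, hτ, hτA, hτ2, hred, hc1, hc2, hc3, hc4⟩
      exact ⟨hred.1, hc1, hc2, hc3, hc4⟩)
  refine ⟨χ₀, ψ₁, Z, hχ₀, hSy, hZ, ?_⟩
  intro z hz hz1 hzZ τ hτ hτA hτ2
  obtain ⟨χ, ψ, hred, hc1, hc2, hc3, hc4⟩ := hmain z hz hz1 τ hτ hτA hτ2
  obtain ⟨s, hs, hχ⟩ := hfin2 (res z) (hL.rs _ hz hz1) hzZ χ ψ
    ⟨z, hz, hz1, rfl, τ, hτ, hτA, hτ2, hred, hc1, hc2, hc3, hc4⟩
  exact ⟨s, hs, hχ ▸ hred⟩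

end

theorem st_P1 (h1 : ST_P1A) (h2 : ST_FINQ) (hTD : ST_TDEF) (hRED : ST_RED) (hLFX : ST_LFX)
    (hFDV : ST_FDV) (hRFA : ST_RFA) (hRAM : ST_RAMX) (hTRA : ST_TRA) (hRDU : ST_RDU)
    (hOVF : ST_OVF) : ST_P1 := by
  classical
  intro p n _ hPP K a ϖ hϖ
  obtain ⟨hcl, hex, -, hFq⟩ := hRFA p
  have h2n : 2 * n < p := by
    have := hPP.big
    nlinarith
  -- the field of definition
  set Em : IntermediateField ℚ_[p] ℂ_[p] :=
    K.E₀ ⊔ IntermediateField.adjoin ℚ_[p] ({(a : ℂ_[p]), (ϖ : ℂ_[p])} : Set ℂ_[p]) with hEm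
  have hE0 : K.E₀ ≤ Em := le_sup_left
  have hadj : IntermediateField.adjoin ℚ_[p] ({(a : ℂ_[p]), (ϖ : ℂ_[p])} : Set ℂ_[p]) ≤ Em :=
    le_sup_right
  have ha : (a : ℂ_[p]) ∈ Em := hadj (IntermediateField.subset_adjoin _ _ (by simp))
  have hϖm : (ϖ : ℂ_[p]) ∈ Em := hadj (IntermediateField.subset_adjoin _ _ (by simp))
  have hfin : FiniteDimensional ℚ_[p] Em := by
    haveI := K.fin₀
    haveI : FiniteDimensional ℚ_[p]
        (IntermediateField.adjoin ℚ_[p] ({(a : ℂ_[p]), (ϖ : ℂ_[p])} : Set ℂ_[p])) := by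
      haveI : Finite ({(a : ℂ_[p]), (ϖ : ℂ_[p])} : Set ℂ_[p]) := by
        exact (Set.toFinite _).to_subtype
      apply IntermediateField.finiteDimensional_adjoin
      intro x hx
      rcases hx with rfl | rfl
      · exact (K.alg _ a.2).isIntegral
      · exact (K.alg _ ϖ.2).isIntegral
    exact IntermediateField.finiteDimensional_sup _ _
  have hEmle : ∀ E₁ : IntermediateField ℚ_[p] ℂ_[p], K.E₀ ≤ E₁ → (a : ℂ_[p]) ∈ E₁ →
      (ϖ : ℂ_[p]) ∈ E₁ → Em ≤ E₁ := by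
    intro E₁ h0 ha1 hϖ1
    refine sup_le h0 (IntermediateField.adjoin_le_iff.2 ?_)
    rintro x (rfl | rfl)
    · exact ha1
    · exact hϖ1
  obtain ⟨πm, hπmA, fm, hLm⟩ := (hLFX p K.A K.acl Em hfin).2
  obtain ⟨Fo, hFo⟩ := hOVF p K.A Em
  have hp0 : 0 < p := hPP.prime.pos
  have hred : ∀ (m : ℕ), 0 < m → ∀ (b : Bool) (i : ℕ), ∃ (κ : ℂ_[p]) (P Q : Polynomial ℂ_[p]),
      Rdx Em κ (K.H m (cc K.A a ϖ b i)) a ϖ P Q := by
    intro m hm b i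
    obtain ⟨s, P, Q, h⟩ := hRED p K.A K.acl Em πm fm hLm a ϖ ha hϖm hϖ (K.H m (cc K.A a ϖ b i))
      (K.H0 m _ hm) (K.Hdef Em hfin hE0 m _ hm (p1_ov_nat K.A Em Fo hFo a ϖ ha hϖm b i))
    exact ⟨_, P, Q, h⟩
  choose κ P Q hR using hred p hp0
  choose κ' P' Q' hR' using hred (4 * n + 2) (by omega)
  -- the first exceptional set
  set B₀ : Set (RF p) := {w | ∃ b : Bool, ∃ i : ℕ, i ≤ 2 * n ∧ ((rd (P b i)).eval w = 0 ∨
    (rd (Q b i)).eval w = 0 ∨ (rd (P' b i)).eval w = 0 ∨ (rd (Q' b i)).eval w = 0)} with hB₀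
  have hroot : ∀ φ : Polynomial (RF p), φ ≠ 0 → {w | φ.eval w = 0}.Finite := by
    intro φ hφ
    refine (φ.roots.toFinset.finite_toSet).subset ?_
    intro w hw
    rw [Finset.mem_coe, Multiset.mem_toFinset, mem_roots hφ]
    exact hw
  have hB₀fin : B₀.Finite := by
    have : B₀ = ⋃ b : Bool, ⋃ i ∈ Set.Iic (2 * n), ({w | (rd (P b i)).eval w = 0} ∪
        ({w | (rd (Q b i)).eval w = 0} ∪ ({w | (rd (P' b i)).eval w = 0} ∪
        {w | (rd (Q' b i)).eval w = 0}))) := by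
      ext w
      simp only [hB₀, Set.mem_setOf_eq, Set.mem_iUnion, Set.mem_Iic, Set.mem_union, exists_prop]
    rw [this]
    refine Set.finite_iUnion fun b => (Set.finite_Iic _).biUnion fun i _ => ?_
    exact (hroot _ (hR b i).rP).union ((hroot _ (hR b i).rQ).union
      ((hroot _ (hR' b i).rP).union (hroot _ (hR' b i).rQ)))
  have hnB : ∀ w, w ∉ B₀ → ∀ b i, i ≤ 2 * n → (rd (P b i)).eval w ≠ 0 ∧ (rd (Q b i)).eval w ≠ 0 ∧
      (rd (P' b i)).eval w ≠ 0 ∧ (rd (Q' b i)).eval w ≠ 0 := by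
    intro w hw b i hi
    refine ⟨fun h => hw ⟨b, i, hi, Or.inl h⟩, fun h => hw ⟨b, i, hi, Or.inr (Or.inl h)⟩,
      fun h => hw ⟨b, i, hi, Or.inr (Or.inr (Or.inl h))⟩,
      fun h => hw ⟨b, i, hi, Or.inr (Or.inr (Or.inr h))⟩⟩
  -- the system over the small field
  have hliftP : ∀ (b : Bool) (i : ℕ), ∃ R : Polynomial (Fq p fm),
      R.map (algebraMap (Fq p fm) (RF p)) = rd (P b i) := fun b i =>
    p1_lift _ _ (p1_rd_mem hLm le_rfl (hR b i).cP)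
  have hliftQ : ∀ (b : Bool) (i : ℕ), ∃ R : Polynomial (Fq p fm),
      R.map (algebraMap (Fq p fm) (RF p)) = rd (Q b i) := fun b i =>
    p1_lift _ _ (p1_rd_mem hLm le_rfl (hR b i).cQ)
  choose Pb hPb using hliftP
  choose Qb hQb using hliftQ
  set U : Bool → ℕ → Polynomial (Fq p fm) := fun b i =>
    derivative (Pb b i) * Qb b i - Pb b i * derivative (Qb b i) with hU
  set V : Bool → ℕ → Polynomial (Fq p fm) := fun b i => Pb b i * Qb b i with hV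
  have hV0 : ∀ b i, V b i ≠ 0 := by
    intro b i
    refine mul_ne_zero ?_ ?_
    · intro h
      have := hPb b i
      rw [h, Polynomial.map_zero] at this
      exact (hR b i).rP this.symm
    · intro h
      have := hQb b i
      rw [h, Polynomial.map_zero] at this
      exact (hR b i).rQ this.symm
  have hUV : ∀ w, w ∉ B₀ → ∀ b i, i ≤ 2 * n →
      (derivative (rd (P b i))).eval w / (rd (P b i)).eval w -
        (derivative (rd (Q b i))).eval w / (rd (Q b i)).eval w =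
      aeval w (U b i) / aeval w (V b i) := by
    intro w hw b i hi
    obtain ⟨hp1, hq1, -, -⟩ := hnB w hw b i hi
    have e1 : aeval w (Pb b i) = (rd (P b i)).eval w := by
      rw [← hPb, eval_map_algebraMap]
    have e2 : aeval w (Qb b i) = (rd (Q b i)).eval w := by
      rw [← hQb, eval_map_algebraMap]
    have e3 : aeval w (derivative (Pb b i)) = (derivative (rd (P b i))).eval w := by
      rw [← hPb, derivative_map, eval_map_algebraMap]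
    have e4 : aeval w (derivative (Qb b i)) = (derivative (rd (Q b i))).eval w := by
      rw [← hQb, derivative_map, eval_map_algebraMap]
    simp only [hU, hV, map_sub, map_mul, e1, e2, e3, e4]
    field_simp
  have hinf : {w : RF p | ∃ χ ψ : Polynomial (RF p), χ ≠ 0 ∧
      Sy n w 1 (fun b i => aeval w (U b i) / aeval w (V b i)) χ ψ}.Infinite := by
    haveI : Infinite (RF p) := IsAlgClosed.instInfinite
    refine hB₀fin.infinite_compl.mono ?_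
    intro w hw
    have hw' : w ∉ B₀ := hw
    obtain ⟨f', hf', hwf'⟩ := hex w
    have hfpos : 0 < fm * f' := Nat.mul_pos hLm.fpos hf'
    have hwf : w ∈ Fq p (fm * f') := (hFq f' (fm * f') hf' hfpos).2 (dvd_mul_left _ _) hwf'
    obtain ⟨π, hπ⟩ := IsAlgClosed.exists_pow_nat_eq πm (n := 4 * n + 2) (by omega)
    obtain ⟨E, hE, hL⟩ := hRAM p Em πm fm hLm (fm * f') (4 * n + 2) π (dvd_mul_right _ _) hfpos
      (by omega) hπ
    obtain ⟨ζ, hζ, hζ2, hζ1, rfl⟩ := hL.tei w hwf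
    obtain ⟨χ₀, ψ₁, Z, hχ₀, hSy, -⟩ := p1_star h1 h2 hTRA hPP K a ϖ hϖ Em hfin hE0 ha hϖm κ κ' P Q
      P' Q' hR hR' Em πm fm hLm le_rfl E π (fm * f') (4 * n + 2) hL hE (by omega) dvd_rfl
      (by rw [← norm_pow, hπ]) ζ hζ hζ1 hζ2 (hnB _ hw')
    exact ⟨χ₀, ψ₁, hχ₀, p1_sy_congr (hUV _ hw') hSy⟩
  obtain ⟨T₁, hT₁, hT₁n, hT₁f⟩ := hTD (Fq p fm) (RF p) p n hPP.prime inferInstance h2n U V hV0 hinf
  set T : Polynomial (Polynomial (RF p)) := T₁.map (mapRingHom (algebraMap (Fq p fm) (RF p))) with hT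
  have hinj : Function.Injective (mapRingHom (algebraMap (Fq p fm) (RF p))) :=
    map_injective _ (algebraMap (Fq p fm) (RF p)).injective
  have hsp : ∀ w : RF p, sp w T = spA w T₁ := by
    intro w
    unfold sp spA
    rw [hT, Polynomial.map_map]
    congr 1
    apply RingHom.ext
    intro φ
    show eval w (φ.map _) = aeval w φ
    rw [eval_map_algebraMap]
  refine ⟨T, ⟨?_, ?_, B₀ ∪ {w : RF p | ∃ χ ψ : Polynomial (RF p), χ ≠ 0 ∧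
      Sy n w 1 (fun b i => aeval w (U b i) / aeval w (V b i)) χ ψ ∧
      ¬ ∃ s : RF p, s ≠ 0 ∧ χ = C s * spA w T₁}, hB₀fin.union hT₁f, ?_⟩, ?_⟩
  · exact (Polynomial.map_ne_zero_iff hinj).2 hT₁
  · exact natDegree_map_le.trans hT₁n
  · intro E₁ π₁ f₁ hL₁ hE₀₁ ha₁ hϖ₁ E π f M hL hE hM hdvd hπ ζ hζ hζ1 hζ2 hζB
    rw [Set.mem_union, not_or] at hζB
    obtain ⟨χ₀, ψ₁, Z, hχ₀, hSy, hZ, hmain⟩ := p1_star h1 h2 hTRA hPP K a ϖ hϖ Em hfin hE0 ha hϖm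
      κ κ' P Q P' Q' hR hR' E₁ π₁ f₁ hL₁ (hEmle E₁ hE₀₁ ha₁ hϖ₁) E π f M hL hE hM hdvd hπ ζ hζ hζ1
      hζ2 (hnB _ hζB.1)
    have hs : ∃ s : RF p, s ≠ 0 ∧ χ₀ = C s * spA (res ζ) T₁ := by
      by_contra hcon
      exact hζB.2 ⟨χ₀, ψ₁, hχ₀, p1_sy_congr (hUV _ hζB.1) hSy, hcon⟩
    obtain ⟨s, hs0, hs1⟩ := hs
    refine ⟨Z, hZ, fun z hz hz1 hzZ τ hτ hτA hτ2 => ?_⟩
    obtain ⟨s', hs'0, hr⟩ := hmain z hz hz1 hzZ τ hτ hτA hτ2
    have h3 := (hRDU p (K.χ τ)).2.2.1 _ (s' * s)⁻¹ (inv_ne_zero (mul_ne_zero hs'0 hs0)) hr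
    have h4 : C (s' * s)⁻¹ * (C s' * χ₀) = sp (res ζ) T := by
      rw [hs1, hsp, ← mul_assoc, ← mul_assoc, ← map_mul, ← map_mul, mul_assoc,
        inv_mul_cancel₀ (mul_ne_zero hs'0 hs0), map_one, one_mul]
    rwa [h4] at h3
  · intro E₁ π₁ f₁ hL₁ hE₀₁ ha₁ hϖ₁ i j
    have hdv := (hFDV p Em E₁ πm π₁ fm f₁ hLm hL₁ (hEmle E₁ hE₀₁ ha₁ hϖ₁)).1
    refine (hFq fm f₁ hLm.fpos hL₁.fpos).2 hdv ?_
    rw [hT, coeff_map, coe_mapRingHom, coeff_map]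
    exact ((T₁.coeff i).coeff j).2

end Pool.Agent.Helper60.FF
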